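import Pool.Agent.NH64.GM.Main

/-!
# The geometric mean of convex bodies coincides with its ellipsoidal envelopes exactly for
quadratic direct sums

`geomMean K T` is the geometric mean `G(K,T)`, `upperEnv K T` and `lowerEnv K T` are the upper and
lower ellipsoidal envelopes (definitions in `Pool.Agent.NH64.GM.Def`).

Outline.  `upperEnv K T = {n ≤ 1}`, where `n` is the maximum of the quadratic forms `w` with
`0 ≤ u(x) + 2 w(x,x') + v(x')` for some psd `u ≤ 1` on `K`, `v ≤ 1` on `T`.  If the envelopes agree,
`n` and the function `n*` of the polar pair are dual; optimal triples for a dual pair of points give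
a frame (simultaneous diagonalisation) through every point `x = ∑ c_i e_i` with weights `a_i`.
The measure `∑ c_i² δ_{a_i}` depends on `x` only, and `x ↦ ∑ φ(a_i) c_i²` is convex for the
nonnegative `φ` in the span of `1` and the functions `1/(a + l)`.  Functions `φ` vanishing on finite
sets of weights then give the linear decomposition.
-/

set_option autoImplicit false

open Pool.Agent.NH64.GM

namespace Pool.Agent.Results.MP_105f6a_gt.QuadraticSums

/-- Let `K`, `T` be convex bodies in `ℝ^n`.  The lower envelope, the geometric mean and the upper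
envelope of `(K,T)` coincide if and only if there are a direct sum decomposition
`ℝ^n = V_1 ⊕ … ⊕ V_k` with projections `P_i`, norms `p_i` on `V_i` and numbers `lam_i > 0` with
`K = {x : ∑ p_i(P_i x)² ≤ 1}` and `T = {x : ∑ lam_i² p_i(P_i x)² ≤ 1}`; and for all such data
`G(K,T) = {x : ∑ lam_i p_i(P_i x)² ≤ 1}`. -/
theorem result (n : ℕ) (K T : Set (EuclideanSpace ℝ (Fin n))) (hK : IsBody K) (hT : IsBody T) :
    ((lowerEnv K T = geomMean K T ∧ geomMean K T = upperEnv K T) ↔
      ∃ (k : ℕ) (P : Fin k → EuclideanSpace ℝ (Fin n) →ₗ[ℝ] EuclideanSpace ℝ (Fin n))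
        (p : Fin k → Seminorm ℝ (EuclideanSpace ℝ (Fin n))) (lam : Fin k → ℝ),
        IsData K T P p lam) ∧
    ∀ (k : ℕ) (P : Fin k → EuclideanSpace ℝ (Fin n) →ₗ[ℝ] EuclideanSpace ℝ (Fin n))
      (p : Fin k → Seminorm ℝ (EuclideanSpace ℝ (Fin n))) (lam : Fin k → ℝ),
      IsData K T P p lam → geomMean K T = {x | ∑ i, lam i * p i (P i x) ^ 2 ≤ 1} :=
  Main.main (EuclideanSpace ℝ (Fin n)) K T hK hT

end Pool.Agent.Results.MP_105f6a_gt.QuadraticSums
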